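import Pool.Agent.H95.Ienv

set_option autoImplicit false
open Pool.Agent.H95.Ienv Metric

theorem Pool.Agent.Results.MP_1f58a3_an.No.result (c : ℝ) (hc : 1 ≤ c) :
    ∃ (X : Type) (_ : NormedAddCommGroup X) (_ : NormedSpace ℝ X), CompleteSpace X ∧
      ∃ (A : Set (StrongDual ℝ X)) (η : StrongDual ℝ X), A.Nonempty ∧ Bornology.IsBounded A ∧
        c * d2 A η < infDist η (Ienv A) :=
  Pool.Agent.H95.Ienv.main2 c hc
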